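import Pool.Agent.Lib.MP_cf143d_an.Calculus

/-!
# Full solution of Q1 of `MP_cf143d_an`

For every `h ∈ H^∞`, the supremum `M_h(n,r)` of `‖h + pH^∞‖` over polynomials of degree `n` with
all zeros in `‖z‖ ≤ r` is attained at `p = (z - w)^n` for some `w` with `‖w‖ = r`; its value is
`max_{‖v‖ = r} ‖h(T_v)‖` with `T_v = (v I + N)(I + \bar v N)⁻¹`.  For `h = z^m` (every `m`) the
polynomial `(z - r)^n` is a maximiser, and the value is `‖T_r^m‖`.
-/

set_option autoImplicit false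

open Complex Metric Set Polynomial
open Pool.MP_cf143d_an.Ptak

namespace Pool.Agent.Results.MP_cf143d_an.PtakProblem

theorem ne_zero_of_mem {n : ℕ} (hn : 1 ≤ n) {r : ℝ} {p : ℂ[X]} (hp : p ∈ polyClass n r) :
    p ≠ 0 := by
  rintro rfl
  have := hp.1
  simp at this
  omega

theorem card_roots_of_mem {n : ℕ} {r : ℝ} {p : ℂ[X]} (hp : p ∈ polyClass n r) :
    p.roots.card = n := by
  rw [← hp.1]
  exact splits_iff_card_roots.mp (IsAlgClosed.splits p)

theorem roots_le_of_mem {n : ℕ} (hn : 1 ≤ n) {r : ℝ} {p : ℂ[X]} (hp : p ∈ polyClass n r) :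
    ∀ a ∈ p.roots, ‖a‖ ≤ r := fun a ha =>
  hp.2 a ((mem_roots (ne_zero_of_mem hn hp)).mp ha)

theorem pow_mem (n : ℕ) {r : ℝ} {w : ℂ} (hw : ‖w‖ ≤ r) :
    (X - C w) ^ n ∈ polyClass n r := by
  refine ⟨by rw [natDegree_pow, natDegree_X_sub_C, mul_one], fun z hz => ?_⟩
  have h1 : (z - w) ^ n = 0 := by simpa [IsRoot] using hz
  have h2 : z - w = 0 := by
    by_contra hne
    exact pow_ne_zero n hne h1
  rw [sub_eq_zero.mp h2]
  exact hw

theorem isGreatest_of {h : ℂ → ℂ} {n : ℕ} (hn : 1 ≤ n) {r : ℝ} {w : ℂ} (hw : ‖w‖ ≤ r)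
    (hmax : ∀ B : Multiset ℂ, B.card = n → (∀ b ∈ B, ‖b‖ ≤ r) →
      quotNorm h (nodePoly B) ≤ quotNorm h (nodePoly (Multiset.replicate n w))) :
    IsGreatest (quotNorm h '' polyClass n r) (quotNorm h ((X - C w) ^ n)) := by
  refine ⟨⟨_, pow_mem n hw, rfl⟩, ?_⟩
  rintro _ ⟨p, hp, rfl⟩
  rw [quotNorm_eq_nodePoly (ne_zero_of_mem hn hp), ← nodePoly_replicate]
  exact hmax _ (card_roots_of_mem hp) (roots_le_of_mem hn hp)

theorem memHinf_pow (m : ℕ) : MemHinf (fun z => z ^ m) := by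
  refine ⟨(differentiable_id.pow m).differentiableOn, 1, fun z hz => ?_⟩
  rw [norm_pow]
  exact pow_le_one₀ (norm_nonneg _) (mem_ball_zero_iff.mp hz).le

/-- **Theorem** (full answer to Q1).  Let `n ≥ 1` and `0 < r < 1`.

* For every `h ∈ H^∞` there is `w` with `‖w‖ = r` such that `(z - w)^n` maximises
  `‖h + pH^∞‖` over all polynomials `p` of degree `n` with zeros in `‖z‖ ≤ r`, and the maximum
  equals `max_{‖v‖ = r} ‖h(T_v)‖`, `T_v = (v I + N)(I + \bar v N)⁻¹`.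
* For `h = z^m`, `m` arbitrary, `(z - r)^n` is a maximiser, and the maximum is `‖T_r^m‖`. -/
theorem result (n : ℕ) (hn : 1 ≤ n) (r : ℝ) (hr0 : 0 < r) (hr1 : r < 1) :
    (∀ h : ℂ → ℂ, MemHinf h → ∃ w : ℂ, ‖w‖ = r ∧
      IsGreatest (quotNorm h '' polyClass n r) (quotNorm h ((X - C w) ^ n)) ∧
      quotNorm h ((X - C w) ^ n) = opNorm (evalT n h w) ∧
      IsGreatest ((fun v : ℂ => opNorm (evalT n h v)) '' sphere 0 r) (opNorm (evalT n h w))) ∧
    (∀ m : ℕ,
      IsGreatest (quotNorm (fun z => z ^ m) '' polyClass n r)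
        (quotNorm (fun z => z ^ m) ((X - C (r : ℂ)) ^ n)) ∧
      quotNorm (fun z => z ^ m) ((X - C (r : ℂ)) ^ n) = opNorm (modelT n r ^ m)) := by
  have hrn : ‖(r:ℂ)‖ = r := by rw [norm_real, Real.norm_of_nonneg hr0.le]
  refine ⟨fun h hh => ?_, fun m => ?_⟩
  · obtain ⟨w, hw, hmax⟩ := exists_coalesced_max hh hr0 hr1 hn
    have hw1 : ‖w‖ < 1 := by rw [hw]; exact hr1
    have hG := isGreatest_of hn hw.le hmax
    have hval : quotNorm h ((X - C w) ^ n) = opNorm (evalT n h w) := quotNorm_eq_evalT hh hw1 n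
    refine ⟨w, hw, hG, hval, ⟨w, by simpa using hw, rfl⟩, ?_⟩
    rintro _ ⟨v, hv, rfl⟩
    have hv' : ‖v‖ = r := by simpa using hv
    have hv1 : ‖v‖ < 1 := by rw [hv']; exact hr1
    have e : opNorm (evalT n h v) = quotNorm h ((X - C v) ^ n) := (quotNorm_eq_evalT hh hv1 n).symm
    simp only
    rw [e, ← hval]
    exact hG.2 ⟨_, pow_mem n hv'.le, rfl⟩
  · have hh := memHinf_pow m
    obtain ⟨w, hw, hmax⟩ := exists_coalesced_max hh hr0 hr1 hn
    have hw0 : w ≠ 0 := by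
      rintro rfl
      simp at hw
      exact hr0.ne hw
    have hG := isGreatest_of hn hw.le hmax
    have hr1' : ‖(r:ℂ)‖ < 1 := by rw [hrn]; exact hr1
    have e : quotNorm (fun z => z ^ m) ((X - C w) ^ n) =
        quotNorm (fun z => z ^ m) ((X - C (r : ℂ)) ^ n) := by
      apply le_antisymm
      · have hc : ‖w / (r:ℂ)‖ = 1 := by rw [norm_div, hrn, hw, div_self hr0.ne']
        have := quotNorm_rotate (m := m) (n := n) (w := (r:ℂ)) hc
        rwa [div_mul_cancel₀ _ (by exact_mod_cast hr0.ne')] at this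
      · have hc : ‖(r:ℂ) / w‖ = 1 := by rw [norm_div, hrn, hw, div_self hr0.ne']
        have := quotNorm_rotate (m := m) (n := n) (w := w) hc
        rwa [div_mul_cancel₀ _ hw0] at this
    rw [e] at hG
    refine ⟨hG, ?_⟩
    rw [quotNorm_eq_evalT hh hr1' n, evalT_pow n m hr1']
    rfl

end Pool.Agent.Results.MP_cf143d_an.PtakProblem
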